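import Mathlib

set_option autoImplicit false

/-!
# The Bishop-Phelps-Bollobás modulus for real-valued functionals
-/

namespace Pool.Agent.R279.BPB

universe u

/-- the modulus `Φ^S(X, ℝ, ε)`: the infimum of all `δ > 0` such that whenever `‖x‖ = ‖f‖ = 1` and
`f x > 1 - ε` there are `y`, `g` with `‖y‖ = ‖g‖ = 1`, `|g y| = 1`, `‖x - y‖ < δ`, `‖f - g‖ < δ` -/
noncomputable def Phi (X : Type u) [NormedAddCommGroup X] [NormedSpace ℝ X] (ε : ℝ) : ℝ :=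
  sInf {δ : ℝ | 0 < δ ∧ ∀ (x : X) (f : StrongDual ℝ X), ‖x‖ = 1 → ‖f‖ = 1 → 1 - ε < f x →
    ∃ (y : X) (g : StrongDual ℝ X), ‖y‖ = 1 ∧ ‖g‖ = 1 ∧ |g y| = 1 ∧ ‖x - y‖ < δ ∧ ‖f - g‖ < δ}

end Pool.Agent.R279.BPB
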