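import Mathlib
import Pool.Agent.R279.BPB.Defs
import Pool.Agent.Helper902.SlBR

set_option autoImplicit false

open Set

namespace Pool.Agent.R279.BPB

universe u

variable {X : Type u} [NormedAddCommGroup X] [NormedSpace ℝ X]

/-- splitting a functional which supports the intersection of two balls -/
lemma split_support {x y : X} {s : ℝ} (hx : ‖x‖ = 1) (hs : 0 < s) (hs1 : s ≤ 1) (hy : ‖y‖ ≤ 1)
    (hyx : ‖y - x‖ ≤ s) (F : StrongDual ℝ X) (hF : ∀ z : X, ‖z‖ ≤ 1 → ‖z - x‖ ≤ s → F z ≤ F y) :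
    ∃ g1 g2 : StrongDual ℝ X, F = g1 + g2 ∧ g1 y = ‖g1‖ ∧ g2 (y - x) = s * ‖g2‖ := by
  let E1 : Set (X × ℝ) := {p | ‖p.1‖ < 1 ∧ 0 < p.2}
  let E2 : Set (X × ℝ) := {p | ‖p.1 - x‖ ≤ s ∧ p.2 ≤ F (p.1 - y)}
  have hE1c : Convex ℝ E1 := by
    rintro p ⟨hp1, hp2⟩ q ⟨hq1, hq2⟩ a b ha hb hab
    refine ⟨?_, ?_⟩
    · change ‖a • p.1 + b • q.1‖ < 1
      have h1 : p.1 ∈ Metric.ball (0:X) 1 := by simpa using hp1
      have h2 : q.1 ∈ Metric.ball (0:X) 1 := by simpa using hq1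
      have := (convex_ball (0:X) 1) h1 h2 ha hb hab
      simpa using this
    · change 0 < a * p.2 + b * q.2
      rcases eq_or_lt_of_le ha with h | h
      · have : b = 1 := by linarith
        rw [← h, this]; linarith
      · have := mul_pos h hp2
        have := mul_nonneg hb hq2.le
        linarith
  have hE1o : IsOpen E1 := by
    have h1 : IsOpen {p : X × ℝ | ‖p.1‖ < 1} := isOpen_lt (by fun_prop) continuous_const
    have h2 : IsOpen {p : X × ℝ | 0 < p.2} := isOpen_lt continuous_const (by fun_prop)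
    exact h1.inter h2
  have hE2c : Convex ℝ E2 := by
    rintro p ⟨hp1, hp2⟩ q ⟨hq1, hq2⟩ a b ha hb hab
    refine ⟨?_, ?_⟩
    · change ‖a • p.1 + b • q.1 - x‖ ≤ s
      have h1 : p.1 ∈ Metric.closedBall x s := by rw [Metric.mem_closedBall, dist_eq_norm]; exact hp1
      have h2 : q.1 ∈ Metric.closedBall x s := by rw [Metric.mem_closedBall, dist_eq_norm]; exact hq1
      have := (convex_closedBall x s) h1 h2 ha hb hab
      rwa [Metric.mem_closedBall, dist_eq_norm] at this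
    · change a * p.2 + b * q.2 ≤ F (a • p.1 + b • q.1 - y)
      have e : a • p.1 + b • q.1 - y = a • (p.1 - y) + b • (q.1 - y) := by
        rw [smul_sub, smul_sub]
        have : y = a • y + b • y := by rw [← add_smul, hab, one_smul]
        conv_lhs => rw [this]
        abel
      rw [e, map_add, map_smul, map_smul, smul_eq_mul, smul_eq_mul]
      exact add_le_add (mul_le_mul_of_nonneg_left hp2 ha) (mul_le_mul_of_nonneg_left hq2 hb)
  have hdisj : Disjoint E1 E2 := by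
    rw [Set.disjoint_left]
    rintro p ⟨h1, h2⟩ ⟨h3, h4⟩
    have := hF p.1 h1.le h3
    rw [map_sub] at h4
    linarith
  obtain ⟨G, κ, hG1, hG2⟩ := geometric_hahn_banach_open hE1c hE1o hE2c hdisj
  set c : ℝ := G (0, 1) with hc
  have hGe : ∀ (u : X) (r : ℝ), G (u, r) = G (u, 0) + r * c := by
    intro u r
    have : ((u, r) : X × ℝ) = (u, 0) + r • (0, 1) := by simp
    rw [this, map_add, map_smul, smul_eq_mul]
  have hmid1 : ‖(1 - s / 2) • x‖ < 1 := by
    rw [norm_smul, hx, mul_one, Real.norm_of_nonneg (by linarith)]; linarith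
  have hmid2 : ‖(1 - s / 2) • x - x‖ ≤ s := by
    have : (1 - s / 2) • x - x = (-(s / 2)) • x := by
      rw [sub_smul, one_smul, neg_smul]; abel
    rw [this, norm_smul, hx, mul_one, norm_neg, Real.norm_of_nonneg (by linarith)]; linarith
  have hcneg : c < 0 := by
    -- compare a point of E1 above a point of E2
    set w := (1 - s / 2) • x with hw
    have h2 : κ ≤ G (w, F (w - y)) := hG2 _ ⟨hmid2, le_rfl⟩
    have h1 : G (w, max 1 (F (w - y) + 1)) < κ := hG1 _ ⟨hmid1, by positivity⟩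
    rw [hGe] at h1 h2
    have h3 : F (w - y) < max 1 (F (w - y) + 1) := lt_of_lt_of_le (by linarith) (le_max_right _ _)
    by_contra hcon
    push Not at hcon
    have := mul_le_mul_of_nonneg_right h3.le hcon
    linarith
  -- inequality on the closed ball
  have hB : ∀ u : X, ‖u‖ ≤ 1 → G (u, 0) ≤ κ := by
    intro u hu
    -- first on the open ball
    have h1 : ∀ u : X, ‖u‖ < 1 → G (u, 0) ≤ κ := by
      intro u hu
      refine le_of_forall_pos_lt_add fun e he => ?_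
      have := hG1 (u, e / (-c)) ⟨hu, div_pos he (neg_pos.mpr hcneg)⟩
      rw [hGe] at this
      have h5 : e / (-c) * c = -e := by
        have hc0 : c ≠ 0 := hcneg.ne
        rw [div_neg, neg_mul, div_mul_cancel₀ e hc0]
      rw [h5] at this
      linarith
    have h2 : u ∈ closure (Metric.ball (0:X) 1) := by
      rw [closure_ball (0:X) one_ne_zero]
      simpa using hu
    have h3 : IsClosed {u : X | G (u, 0) ≤ κ} := isClosed_le (by fun_prop) continuous_const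
    have h4 : Metric.ball (0:X) 1 ⊆ {u : X | G (u, 0) ≤ κ} := fun u hu => h1 u (by simpa using hu)
    exact h3.closure_subset_iff.mpr h4 h2
  have hC : ∀ u : X, ‖u - x‖ ≤ s → κ ≤ G (u, 0) + F (u - y) * c := by
    intro u hu
    have := hG2 (u, F (u - y)) ⟨hu, le_rfl⟩
    rwa [hGe] at this
  have hκ : G (y, 0) = κ := by
    refine le_antisymm (hB y hy) ?_
    have := hC y hyx
    rw [sub_self, map_zero, zero_mul, add_zero] at this
    exact this
  let g : StrongDual ℝ X := (-c)⁻¹ • G.comp (ContinuousLinearMap.inl ℝ X ℝ)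
  have hg : ∀ u, g u = (-c)⁻¹ * G (u, 0) := fun u => rfl
  have hcp : 0 < (-c)⁻¹ := inv_pos.mpr (neg_pos.mpr hcneg)
  have hg1 : ∀ u : X, ‖u‖ ≤ 1 → g u ≤ g y := by
    intro u hu
    rw [hg, hg, hκ]
    exact mul_le_mul_of_nonneg_left (hB u hu) hcp.le
  have hg2 : ∀ u : X, ‖u - x‖ ≤ s → (F - g) u ≤ (F - g) y := by
    intro u hu
    have h1 := hC u hu
    rw [← hκ] at h1
    rw [sub_apply, sub_apply]
    have h2 : (-c)⁻¹ * G (y, 0) ≤ (-c)⁻¹ * (G (u, 0) + F (u - y) * c) := mul_le_mul_of_nonneg_left h1 hcp.le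
    have h3 : (-c)⁻¹ * (G (u, 0) + F (u - y) * c) = (-c)⁻¹ * G (u, 0) - F (u - y) := by
      have hc0 : c ≠ 0 := hcneg.ne
      field_simp
      ring
    rw [h3, ← hg, ← hg, map_sub] at h2
    linarith
  refine ⟨g, F - g, by abel, ?_, ?_⟩
  · refine le_antisymm ?_ ?_
    · calc g y ≤ ‖g y‖ := Real.le_norm_self _
        _ ≤ ‖g‖ * ‖y‖ := g.le_opNorm y
        _ ≤ ‖g‖ * 1 := by gcongr
        _ = ‖g‖ := mul_one _
    · have h0 : 0 ≤ g y := by
        have := hg1 0 (by simp)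
        rwa [map_zero] at this
      refine g.opNorm_le_of_unit_norm h0 fun u hu => ?_
      rw [Real.norm_eq_abs, abs_le]
      refine ⟨?_, hg1 u hu.le⟩
      have := hg1 (-u) (by rw [norm_neg]; exact hu.le)
      rw [map_neg] at this
      linarith
  · refine le_antisymm ?_ ?_
    · calc (F - g) (y - x) ≤ ‖(F - g) (y - x)‖ := Real.le_norm_self _
        _ ≤ ‖F - g‖ * ‖y - x‖ := (F - g).le_opNorm _
        _ ≤ ‖F - g‖ * s := by gcongr
        _ = s * ‖F - g‖ := mul_comm _ _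
    · have h0 : 0 ≤ (F - g) (y - x) := by
        have := hg2 x (by rw [sub_self, norm_zero]; exact hs.le)
        rw [map_sub]
        linarith
      have h1 : ‖F - g‖ ≤ (F - g) (y - x) / s := by
        refine (F - g).opNorm_le_of_unit_norm (by positivity) fun u hu => ?_
        have hu1 : ‖(x + s • u) - x‖ ≤ s := by
          rw [add_sub_cancel_left, norm_smul, hu, mul_one, Real.norm_of_nonneg hs.le]
        have hu2 : ‖(x - s • u) - x‖ ≤ s := by
          rw [sub_sub_cancel_left, norm_neg, norm_smul, hu, mul_one, Real.norm_of_nonneg hs.le]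
        have h2 := hg2 _ hu1
        have h3 := hg2 _ hu2
        rw [map_add, map_smul, smul_eq_mul] at h2
        rw [map_sub, map_smul, smul_eq_mul] at h3
        rw [le_div_iff₀ hs, Real.norm_eq_abs, map_sub]
        have h4 : |(F - g) u| * s = |s * (F - g) u| := by rw [abs_mul, abs_of_pos hs, mul_comm]
        rw [h4, abs_le]
        constructor <;> linarith
      rw [le_div_iff₀ hs] at h1
      linarith

/-- the main lemma -/
lemma core [CompleteSpace X] {x : X} {f : StrongDual ℝ X} (hx : ‖x‖ = 1) (hf : ‖f‖ = 1) {s η : ℝ}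
    (hs : 0 < s) (hs1 : s ≤ 1) (hη : 0 < η) :
    ∃ (y : X) (g1 g2 : StrongDual ℝ X), ‖y‖ ≤ 1 ∧ ‖y - x‖ ≤ s ∧ ‖f - (g1 + g2)‖ ≤ η ∧ g1 y = ‖g1‖ ∧
      g2 (y - x) = s * ‖g2‖ := by
  let C : Set X := {z | ‖z‖ ≤ 1 ∧ ‖z - x‖ ≤ s}
  have hCe : C = Metric.closedBall (0:X) 1 ∩ Metric.closedBall x s := by
    ext z
    constructor
    · rintro ⟨h1, h2⟩
      exact ⟨by simpa using h1, by rw [Metric.mem_closedBall, dist_eq_norm]; exact h2⟩
    · rintro ⟨h1, h2⟩
      exact ⟨by simpa using h1, by rwa [Metric.mem_closedBall, dist_eq_norm] at h2⟩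
  have hcl : IsClosed C := by
    rw [hCe]
    exact Metric.isClosed_closedBall.inter Metric.isClosed_closedBall
  have hcv : Convex ℝ C := by
    rw [hCe]
    exact (convex_closedBall _ _).inter (convex_closedBall _ _)
  have hxC : x ∈ C := ⟨hx.le, by rw [sub_self, norm_zero]; exact hs.le⟩
  obtain ⟨F, y, ⟨hy1, hy2⟩, hF1, -, hF2⟩ := Pool.Agent.Helper902.Sl.brondsted_rockafellar C hcl hcv f x hxC 2
    (fun z hz => by
      have h1 : f z ≤ 1 := by
        calc f z ≤ ‖f z‖ := Real.le_norm_self _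
          _ ≤ ‖f‖ * ‖z‖ := f.le_opNorm z
          _ ≤ 1 * 1 := mul_le_mul hf.le hz.1 (norm_nonneg _) zero_le_one
          _ = 1 := mul_one _
      have h2 : -1 ≤ f x := by
        have : |f x| ≤ ‖f‖ * ‖x‖ := f.le_opNorm x
        rw [hf, hx, mul_one] at this
        exact (abs_le.mp this).1
      linarith) η hη
  obtain ⟨g1, g2, h1, h2, h3⟩ := split_support hx hs hs1 hy1 hy2 F (fun z hz1 hz2 => hF2 z ⟨hz1, hz2⟩)
  refine ⟨y, g1, g2, hy1, hy2, ?_, h2, h3⟩
  rw [← h1, norm_sub_rev]; exact hF1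

lemma norm_smul_inv {g : StrongDual ℝ X} (hg : 0 < ‖g‖) : ‖‖g‖⁻¹ • g‖ = 1 := by
  rw [norm_smul, norm_inv, norm_norm, inv_mul_cancel₀ hg.ne']

lemma dist_normalized {g : StrongDual ℝ X} (hg : 0 < ‖g‖) : ‖g - ‖g‖⁻¹ • g‖ = |‖g‖ - 1| := by
  have : g - ‖g‖⁻¹ • g = (1 - ‖g‖⁻¹) • g := by
    ext u
    rw [sub_apply, smul_apply, smul_apply, smul_eq_mul, smul_eq_mul]
    ring
  rw [this, norm_smul, Real.norm_eq_abs]
  have h1 : 1 - ‖g‖⁻¹ = (‖g‖ - 1) * ‖g‖⁻¹ := by field_simp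
  rw [h1, abs_mul, abs_of_pos (inv_pos.mpr hg), mul_assoc, inv_mul_cancel₀ hg.ne', mul_one]

/-- distance at most one -/
lemma case_one [CompleteSpace X] {x : X} {f : StrongDual ℝ X} (hx : ‖x‖ = 1) (hf : ‖f‖ = 1) {δ : ℝ} (hδ : 1 < δ) :
    ∃ (y : X) (g : StrongDual ℝ X), ‖y‖ = 1 ∧ ‖g‖ = 1 ∧ |g y| = 1 ∧ ‖x - y‖ < δ ∧ ‖f - g‖ < δ := by
  set η := min ((δ - 1) / 4) (1/2) with hηd
  have hη : 0 < η := by
    refine lt_min ?_ (by norm_num)
    linarith
  have hη1 : η ≤ (δ - 1) / 4 := min_le_left _ _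
  have hη2 : η ≤ 1/2 := min_le_right _ _
  obtain ⟨y, g1, g2, hy, hyx, hfg, h1, h2⟩ := core hx hf (s := 1) one_pos le_rfl hη
  rw [one_mul] at h2
  have hsum : 1 - η ≤ ‖g1‖ + ‖g2‖ := by
    have e : f = (f - (g1 + g2)) + (g1 + g2) := by abel
    have h3 : ‖f‖ ≤ ‖f - (g1 + g2)‖ + ‖g1 + g2‖ := by
      conv_lhs => rw [e]
      exact norm_add_le _ _
    have h4 := norm_add_le g1 g2
    linarith
  have hF : ‖g1 + g2‖ ≤ 1 + η := by
    have e : g1 + g2 = f - (f - (g1 + g2)) := by abel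
    rw [e]
    refine (norm_sub_le _ _).trans ?_
    linarith
  have hFy : (g1 + g2) y ≤ 1 + η := by
    calc (g1 + g2) y ≤ ‖(g1 + g2) y‖ := Real.le_norm_self _
      _ ≤ ‖g1 + g2‖ * ‖y‖ := (g1 + g2).le_opNorm y
      _ ≤ (1 + η) * 1 := mul_le_mul hF hy (norm_nonneg _) (by linarith)
      _ = 1 + η := mul_one _
  have hFyx : (g1 + g2) (y - x) ≤ 1 + η := by
    calc (g1 + g2) (y - x) ≤ ‖(g1 + g2) (y - x)‖ := Real.le_norm_self _
      _ ≤ ‖g1 + g2‖ * ‖y - x‖ := (g1 + g2).le_opNorm _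
      _ ≤ (1 + η) * 1 := mul_le_mul hF hyx (norm_nonneg _) (by linarith)
      _ = 1 + η := mul_one _
  have hg1x : |g1 x| ≤ ‖g1‖ := by
    have := g1.le_opNorm x
    rwa [hx, mul_one] at this
  have hg2x : |g2 x| ≤ ‖g2‖ := by
    have := g2.le_opNorm x
    rwa [hx, mul_one] at this
  have hα : ‖g1‖ ≤ 1 + η := by
    rw [add_apply] at hFy
    rw [map_sub] at h2
    have := (abs_le.mp hg2x).1
    linarith
  have hβ : ‖g2‖ ≤ 1 + η := by
    rw [add_apply, h2, map_sub] at hFyx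
    have := (abs_le.mp hg1x).2
    linarith
  rcases le_or_gt ‖g2‖ ‖g1‖ with hab | hab
  · have hpos : 0 < ‖g1‖ := by linarith [norm_nonneg g2]
    have hy1 : ‖y‖ = 1 := by
      refine le_antisymm hy ?_
      have h3 := g1.le_opNorm y
      rw [h1, norm_norm] at h3
      by_contra hcon
      push Not at hcon
      have := mul_lt_mul_of_pos_left hcon hpos
      linarith
    refine ⟨y, ‖g1‖⁻¹ • g1, hy1, norm_smul_inv hpos, ?_, ?_, ?_⟩
    · rw [smul_apply, h1, smul_eq_mul, inv_mul_cancel₀ hpos.ne', abs_one]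
    · rw [norm_sub_rev]; linarith
    · have e : f - ‖g1‖⁻¹ • g1 = (f - (g1 + g2)) + (g1 - ‖g1‖⁻¹ • g1) + g2 := by abel
      rw [e]
      have h3 : ‖(f - (g1 + g2)) + (g1 - ‖g1‖⁻¹ • g1) + g2‖ ≤ η + |‖g1‖ - 1| + ‖g2‖ := by
        refine (norm_add_le _ _).trans ?_
        have := norm_add_le (f - (g1 + g2)) (g1 - ‖g1‖⁻¹ • g1)
        rw [dist_normalized hpos] at this
        linarith
      refine lt_of_le_of_lt h3 ?_
      rcases abs_cases (‖g1‖ - 1) with ⟨h4, _⟩ | ⟨h4, _⟩ <;> rw [h4] <;> linarith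
  · have hpos : 0 < ‖g2‖ := lt_of_le_of_lt (norm_nonneg _) hab
    have hy1 : ‖y - x‖ = 1 := by
      refine le_antisymm hyx ?_
      have h3 := g2.le_opNorm (y - x)
      rw [h2, norm_norm] at h3
      by_contra hcon
      push Not at hcon
      have := mul_lt_mul_of_pos_left hcon hpos
      linarith
    refine ⟨x - y, ‖g2‖⁻¹ • g2, by rw [norm_sub_rev]; exact hy1, norm_smul_inv hpos, ?_, ?_, ?_⟩
    · have h3 : g2 (x - y) = -‖g2‖ := by
        rw [← neg_sub, map_neg, h2]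
      rw [smul_apply, h3, smul_eq_mul, mul_neg, inv_mul_cancel₀ hpos.ne', abs_neg, abs_one]
    · have : x - (x - y) = y := by abel
      rw [this]; linarith
    · have e : f - ‖g2‖⁻¹ • g2 = (f - (g1 + g2)) + (g2 - ‖g2‖⁻¹ • g2) + g1 := by abel
      rw [e]
      have h3 : ‖(f - (g1 + g2)) + (g2 - ‖g2‖⁻¹ • g2) + g1‖ ≤ η + |‖g2‖ - 1| + ‖g1‖ := by
        refine (norm_add_le _ _).trans ?_
        have := norm_add_le (f - (g1 + g2)) (g2 - ‖g2‖⁻¹ • g2)
        rw [dist_normalized hpos] at this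
        linarith
      refine lt_of_le_of_lt h3 ?_
      rcases abs_cases (‖g2‖ - 1) with ⟨h4, _⟩ | ⟨h4, _⟩ <;> rw [h4] <;> linarith

/-- the classical estimate -/
lemma case_sqrt [CompleteSpace X] {x : X} {f : StrongDual ℝ X} (hx : ‖x‖ = 1) (hf : ‖f‖ = 1) {s δ : ℝ}
    (hs : 0 < s) (hs1 : s ≤ 1) (hfx : 1 - s ^ 2 / 2 < f x) (hδ : s < δ) :
    ∃ (y : X) (g : StrongDual ℝ X), ‖y‖ = 1 ∧ ‖g‖ = 1 ∧ |g y| = 1 ∧ ‖x - y‖ < δ ∧ ‖f - g‖ < δ := by
  set η := min ((δ - s) / 8) (1/8) with hηd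
  have hη : 0 < η := by
    refine lt_min ?_ (by norm_num)
    linarith
  have hη1 : η ≤ (δ - s) / 8 := min_le_left _ _
  have hη2 : η ≤ 1/8 := min_le_right _ _
  obtain ⟨y, g1, g2, hy, hyx, hfg, h1, h2⟩ := core hx hf hs hs1 hη
  have hsum : 1 - η ≤ ‖g1‖ + ‖g2‖ := by
    have e : f = (f - (g1 + g2)) + (g1 + g2) := by abel
    have h3 : ‖f‖ ≤ ‖f - (g1 + g2)‖ + ‖g1 + g2‖ := by
      conv_lhs => rw [e]
      exact norm_add_le _ _
    have h4 := norm_add_le g1 g2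
    linarith
  have hF : ‖g1 + g2‖ ≤ 1 + η := by
    have e : g1 + g2 = f - (f - (g1 + g2)) := by abel
    rw [e]
    refine (norm_sub_le _ _).trans ?_
    linarith
  have hFy : (g1 + g2) y ≤ 1 + η := by
    calc (g1 + g2) y ≤ ‖(g1 + g2) y‖ := Real.le_norm_self _
      _ ≤ ‖g1 + g2‖ * ‖y‖ := (g1 + g2).le_opNorm y
      _ ≤ (1 + η) * 1 := mul_le_mul hF hy (norm_nonneg _) (by linarith)
      _ = 1 + η := mul_one _
  have hg1x : |g1 x| ≤ ‖g1‖ := by
    have := g1.le_opNorm x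
    rwa [hx, mul_one] at this
  have hg2y : |g2 y| ≤ ‖g2‖ := by
    have h3 := g2.le_opNorm y
    exact h3.trans (mul_le_of_le_one_right (norm_nonneg _) hy)
  have hβ : ‖g2‖ < s / 2 + η := by
    -- `(g1 + g2) (y - x)` from both sides
    have h3 : s * ‖g2‖ ≤ (g1 + g2) (y - x) := by
      rw [add_apply, h2, map_sub]
      have := (abs_le.mp hg1x).2
      linarith
    have h4 : (g1 + g2) (y - x) ≤ f (y - x) + η * s := by
      have e : (g1 + g2) (y - x) = f (y - x) - (f - (g1 + g2)) (y - x) := by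
        rw [sub_apply]; ring
      have h5 : |(f - (g1 + g2)) (y - x)| ≤ η * s := by
        have := (f - (g1 + g2)).le_opNorm (y - x)
        exact this.trans (mul_le_mul hfg hyx (norm_nonneg _) hη.le)
      have := (abs_le.mp h5).1
      linarith
    have h5 : f y ≤ 1 := by
      calc f y ≤ ‖f y‖ := Real.le_norm_self _
        _ ≤ ‖f‖ * ‖y‖ := f.le_opNorm y
        _ ≤ 1 * 1 := mul_le_mul hf.le hy (norm_nonneg _) zero_le_one
        _ = 1 := mul_one _
    have e7 : f (y - x) = f y - f x := map_sub _ _ _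
    rw [e7] at h4
    have h6 : s * ‖g2‖ < s * (s / 2 + η) := by nlinarith
    exact lt_of_mul_lt_mul_left h6 hs.le
  have hα : ‖g1‖ ≤ 1 + η + ‖g2‖ := by
    rw [add_apply] at hFy
    have := (abs_le.mp hg2y).1
    linarith
  have hpos : 0 < ‖g1‖ := by linarith
  have hy1 : ‖y‖ = 1 := by
    refine le_antisymm hy ?_
    have h3 := g1.le_opNorm y
    rw [h1, norm_norm] at h3
    by_contra hcon
    push Not at hcon
    have := mul_lt_mul_of_pos_left hcon hpos
    linarith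
  refine ⟨y, ‖g1‖⁻¹ • g1, hy1, norm_smul_inv hpos, ?_, ?_, ?_⟩
  · rw [smul_apply, h1, smul_eq_mul, inv_mul_cancel₀ hpos.ne', abs_one]
  · rw [norm_sub_rev]; linarith
  · have e : f - ‖g1‖⁻¹ • g1 = (f - (g1 + g2)) + (g1 - ‖g1‖⁻¹ • g1) + g2 := by abel
    rw [e]
    have h3 : ‖(f - (g1 + g2)) + (g1 - ‖g1‖⁻¹ • g1) + g2‖ ≤ η + |‖g1‖ - 1| + ‖g2‖ := by
      refine (norm_add_le _ _).trans ?_
      have := norm_add_le (f - (g1 + g2)) (g1 - ‖g1‖⁻¹ • g1)
      rw [dist_normalized hpos] at this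
      linarith
    refine lt_of_le_of_lt h3 ?_
    rcases abs_cases (‖g1‖ - 1) with ⟨h4, _⟩ | ⟨h4, _⟩ <;> rw [h4] <;> linarith

theorem prop_of_gt [CompleteSpace X] {ε : ℝ} (h0 : 0 < ε) {δ : ℝ} (hδ : min √(2 * ε) 1 < δ) (x : X)
    (f : StrongDual ℝ X) (hx : ‖x‖ = 1) (hf : ‖f‖ = 1) (hfx : 1 - ε < f x) :
    ∃ (y : X) (g : StrongDual ℝ X), ‖y‖ = 1 ∧ ‖g‖ = 1 ∧ |g y| = 1 ∧ ‖x - y‖ < δ ∧ ‖f - g‖ < δ := by
  have hpos : 0 < √(2 * ε) := Real.sqrt_pos.mpr (by linarith)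
  rcases le_or_gt √(2 * ε) 1 with h | h
  · rw [min_eq_left h] at hδ
    refine case_sqrt hx hf hpos h ?_ hδ
    rw [Real.sq_sqrt (by linarith)]
    linarith
  · rw [min_eq_right h.le] at hδ
    exact case_one hx hf hδ

theorem phi_le [CompleteSpace X] {ε : ℝ} (h0 : 0 < ε) : Phi X ε ≤ min √(2 * ε) 1 := by
  refine le_of_forall_gt_imp_ge_of_dense fun δ hδ => ?_
  have hbdd : BddBelow {δ : ℝ | 0 < δ ∧ ∀ (x : X) (f : StrongDual ℝ X), ‖x‖ = 1 → ‖f‖ = 1 → 1 - ε < f x →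
    ∃ (y : X) (g : StrongDual ℝ X), ‖y‖ = 1 ∧ ‖g‖ = 1 ∧ |g y| = 1 ∧ ‖x - y‖ < δ ∧ ‖f - g‖ < δ} :=
    ⟨0, fun _ h => h.1.le⟩
  have hpos : 0 < √(2 * ε) := Real.sqrt_pos.mpr (by linarith)
  exact csInf_le hbdd ⟨lt_trans (lt_min hpos one_pos) hδ, prop_of_gt h0 hδ⟩

end Pool.Agent.R279.BPB
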